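import Mathlib
import Pool.Agent.H888R2.IsoA
import Pool.Agent.H888R2.IsoD

/-!
# The isoperimetric profile of the flat torus `T^d = ℝ^d / ℤ^d`, `d ≥ 10`, is not made of the model curves

Subsets of the torus are represented by their preimages in `ℝ^d`.
-/

set_option autoImplicit false

open MeasureTheory Set Filter Topology
open scoped ENNReal ContDiff

namespace Pool.Agent.Results.MP_cbfbdc_gt.NotModelCurves

/-- Euclidean space `ℝ^d` -/
abbrev E (d : ℕ) := EuclideanSpace ℝ (Fin d)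

/-- The cell `[0,1)^d`, a fundamental domain of `ℤ^d`. -/
def cell (d : ℕ) : Set (E d) := {x | ∀ i, 0 ≤ x i ∧ x i < 1}

/-- `x` and `y` represent the same point of the torus `T^d = ℝ^d / ℤ^d`. -/
def SamePoint {d : ℕ} (x y : E d) : Prop := ∀ i, ∃ z : ℤ, y i = x i + (z : ℝ)

/-- `D` is (the preimage in `ℝ^d` of) a domain of the torus: a compact region with smooth boundary.
Near each boundary point it is the sublevel set `f ≤ 0` of a smooth function `f` without critical
points. -/
structure IsDomain {d : ℕ} (D : Set (E d)) : Prop where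
  closed : IsClosed D
  periodic : ∀ x y : E d, SamePoint x y → (x ∈ D ↔ y ∈ D)
  smooth_boundary : ∀ p ∈ frontier D, ∃ (U : Set (E d)) (f : E d → ℝ), IsOpen U ∧ p ∈ U ∧
    ContDiffOn ℝ ∞ f U ∧ (∀ x ∈ U, fderiv ℝ f x ≠ 0) ∧ D ∩ U = {x ∈ U | f x ≤ 0}

/-- The volume of the region `D` of the torus. -/
noncomputable def vol {d : ℕ} (D : Set (E d)) : ℝ≥0∞ := volume (D ∩ cell d)

/-- The `(d-1)`-dimensional volume of the boundary `∂D` in the torus; `μHE[d-1]` is the
`(d-1)`-dimensional Hausdorff measure, normalised as Lebesgue measure. -/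
noncomputable def bdVol {d : ℕ} (D : Set (E d)) : ℝ≥0∞ := μHE[d - 1] (frontier D ∩ cell d)

/-- The region `D` of the torus is connected: it is the image of a connected set of `ℝ^d`. -/
def ConnectedRegion {d : ℕ} (D : Set (E d)) : Prop :=
  ∃ K : Set (E d), IsConnected K ∧ D = {x | ∃ y ∈ K, SamePoint y x}

/-- The isoperimetric profile `h(β)` of the torus `T^d` (which has volume `1`). -/
noncomputable def profile (d : ℕ) (β : ℝ) : ℝ≥0∞ :=
  ⨅ (D : Set (E d)) (_ : IsDomain D) (_ : vol D = ENNReal.ofReal β), bdVol D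

/-- `ω_m`, the volume of the unit ball of `ℝ^m`. -/
noncomputable def omega (m : ℕ) : ℝ := (volume (Metric.ball (0 : E m) 1)).toReal

/-- `φ_k(β) = (d-k) ω_{d-k} r^{d-k-1}`, where `ω_{d-k} r^{d-k} = β`: the boundary volume of the tube of
volume `β` around a `k`-dimensional coordinate subtorus. -/
noncomputable def phi (d k : ℕ) (β : ℝ) : ℝ :=
  ((d - k : ℕ) : ℝ) * omega (d - k) *
    ((β / omega (d - k)) ^ (1 / ((d - k : ℕ) : ℝ))) ^ (d - k - 1)

/-- `φ_k(β)` is defined: `0 ≤ k ≤ d-1` and `β < ω_{d-k} 2^{-(d-k)}`. -/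
def Applicable (d k : ℕ) (β : ℝ) : Prop := k < d ∧ β < omega (d - k) / 2 ^ (d - k)

/-- The formula asked about in dimension `d`: for `0 < β ≤ 1/2` the profile `h(β)` is the minimum of
the numbers `φ_k(β)` over those `k` for which `φ_k(β)` is defined. -/
def ProfileIsModel (d : ℕ) : Prop :=
  ∀ β : ℝ, 0 < β → β ≤ 1 / 2 →
    IsLeast {A : ℝ≥0∞ | ∃ k : ℕ, Applicable d k β ∧ A = ENNReal.ofReal (phi d k β)} (profile d β)

open Pool.Agent.H888R2.Iso in
theorem omega_eq (m : ℕ) (hm : 0 < m) : omega m = w m := by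
  have : Nonempty (Fin m) := ⟨⟨0, hm⟩⟩
  unfold omega w
  rw [EuclideanSpace.volume_ball]
  have hG : 0 < Real.Gamma ((m : ℝ) / 2 + 1) := Real.Gamma_pos_of_pos (by positivity)
  rw [Fintype.card_fin, ENNReal.ofReal_one, one_pow, one_mul, ENNReal.toReal_ofReal (by positivity)]

open Pool.Agent.H888R2.Iso in
theorem phi_gt {d k : ℕ} (hd : 10 ≤ d) (hk : 1 ≤ k) (hkd : k < d) : 2 * d * b d < phi d k (b d) := by
  obtain ⟨j, hj⟩ : ∃ j, d - k = j := ⟨_, rfl⟩
  have hj1 : 1 ≤ j := by omega
  have hjd : j < d := by omega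
  unfold phi
  rw [hj, omega_eq j hj1]
  have hkey := key hd hj1 hjd
  have hw := w_pos j
  have hb := b_pos d
  have hj0 : (0:ℝ) < j := by exact_mod_cast hj1
  have hd0 : (0:ℝ) < d := by
    have : 0 < d := by omega
    exact_mod_cast this
  set ρ : ℝ := (b d / w j) ^ (1 / (j : ℝ)) with hρ
  have hρ0 : 0 < ρ := Real.rpow_pos_of_pos (div_pos hb hw) _
  have hρj : ρ ^ j = b d / w j := by
    rw [hρ, ← Real.rpow_natCast, ← Real.rpow_mul (div_pos hb hw).le]
    rw [one_div_mul_cancel hj0.ne', Real.rpow_one]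
  have hlt : ρ < j / (2 * d) := by
    apply lt_of_pow_lt_pow_left₀ j (by positivity)
    rw [hρj, div_pow, mul_pow, div_lt_div_iff₀ hw (by positivity)]
    unfold b at hkey ⊢
    have h2 : (d:ℝ) ^ j * (w d / 2 ^ d) * 2 ^ j < (j:ℝ) ^ j * (w j / 2 ^ j) * 2 ^ j :=
      mul_lt_mul_of_pos_right hkey (by positivity)
    have h3 : (j:ℝ) ^ j * (w j / 2 ^ j) * 2 ^ j = (j:ℝ) ^ j * w j := by field_simp
    rw [h3] at h2
    linarith
  have e : (j:ℝ) * w j * ρ ^ (j - 1) = j * b d / ρ := by
    rw [eq_div_iff hρ0.ne', mul_assoc, ← pow_succ, Nat.sub_add_cancel hj1, hρj]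
    field_simp
  rw [e, lt_div_iff₀ hρ0]
  rw [lt_div_iff₀ (by positivity)] at hlt
  nlinarith

open Pool.Agent.H888R2.Iso in
/-- the domain -/
theorem exists_domain {n : ℕ} (hn : 1 ≤ n) {q : ℝ} (hq0 : 0 < q) (hq : q ≤ 1 / 2) :
    ∃ D : Set (E (n + 1)), IsDomain D ∧ ConnectedRegion D ∧ vol D = ENNReal.ofReal (b (n + 1)) ∧
      bdVol D ≤ ENNReal.ofReal (((√(1 - q))⁻¹) ^ n * (1 / 2 * (1 - q) ^ (1 / (2 * ((n : ℝ) + 1)))) ^ n *
        ((n : ℝ) + 1) * w (n + 1)) := by
  have hd : 0 < n + 1 := Nat.succ_pos n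
  have h1q : 0 < 1 - q := by linarith
  set c := √(1 - q) with hc
  have hc0 : 0 < c := Real.sqrt_pos.2 h1q
  have hc1 : c ≤ 1 := Real.sqrt_le_one.2 (by linarith)
  set r := 1 / 2 * (1 - q) ^ (1 / (2 * ((n : ℝ) + 1))) with hr
  have hrp : 0 < (1 - q) ^ (1 / (2 * ((n : ℝ) + 1))) := Real.rpow_pos_of_pos h1q _
  have hr0 : 0 < r := by positivity
  have hn0 : (0:ℝ) < (n:ℝ) + 1 := by positivity
  have hsep : Sep (n + 1) c r := by
    refine ⟨√(1 - q / ((n + 1 : ℕ) : ℝ)), ?_, ?_⟩
    · apply Real.lt_sqrt_of_sq_lt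
      have e : (2 * r) ^ 2 = (1 + (-q)) ^ (1 / ((n : ℝ) + 1)) := by
        have : 2 * r = (1 - q) ^ (1 / (2 * ((n : ℝ) + 1))) := by rw [hr]; ring
        rw [this, ← Real.rpow_natCast, ← Real.rpow_mul h1q.le, ← sub_eq_add_neg]
        congr 1
        push_cast
        field_simp
      rw [e]
      have hb := rpow_one_add_lt_one_add_mul_self (s := -q) (by linarith) (by linarith)
        (p := 1 / ((n : ℝ) + 1)) (by positivity) (by
          rw [div_lt_one hn0]
          have : (1:ℝ) ≤ n := by exact_mod_cast hn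
          linarith)
      push_cast
      have e2 : 1 + 1 / ((n:ℝ) + 1) * -q = 1 - q / ((n:ℝ) + 1) := by ring
      rw [e2] at hb
      exact hb
    · intro k hk
      have h := zv_sep hd hq0.le hq hk
      apply Real.sqrt_le_iff.2
      exact ⟨norm_nonneg _, h⟩
  have hvol : c⁻¹ * r ^ (n + 1) = 1 / 2 ^ (n + 1) := by
    have e : ((1 - q) ^ (1 / (2 * ((n : ℝ) + 1)))) ^ (n + 1) = c := by
      rw [← Real.rpow_natCast, ← Real.rpow_mul h1q.le, hc, Real.sqrt_eq_rpow]
      congr 1
      push_cast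
      field_simp
    rw [hr, mul_pow, e]
    field_simp
    rw [← mul_pow]
    norm_num
  have hball : volume (Metric.ball (0 : E (n + 1)) 1) = ENNReal.ofReal (w (n + 1)) := by
    rw [← omega_eq _ hd]
    unfold omega
    rw [ENNReal.ofReal_toReal measure_ball_lt_top.ne]
  refine ⟨DD (n + 1) c r, ⟨DD_closed hd hc0, ?_, fun p hp => smooth_boundary hd hc0 hr0 hsep hp⟩,
    ?_, ?_, ?_⟩
  · intro x y hxy
    choose z hz using hxy
    have e : y = x + zv z := by
      ext i
      exact hz i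
    constructor
    · rintro ⟨k, hk⟩
      refine ⟨k + z, ?_⟩
      rw [e]
      have : x + zv z - zv (k + z) = x - zv k := by
        ext i
        simp [zv]
      rw [this]; exact hk
    · rintro ⟨k, hk⟩
      refine ⟨k - z, ?_⟩
      rw [e] at hk
      have : x - zv (k - z) = x + zv z - zv k := by
        ext i
        simp [zv]
        ring
      rw [this]; exact hk
  · refine ⟨KK (n + 1) c r, ?_, ?_⟩
    · rw [KK_image hd hc0]
      apply IsConnected.image _ _ (T_cont _ _).continuousOn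
      exact ⟨⟨0, by simp [hr0.le]⟩, (convex_closedBall (0 : E (n + 1)) r).isPreconnected⟩
    · ext x
      constructor
      · rintro ⟨k, hk⟩
        refine ⟨x - zv k, hk, fun i => ⟨k i, ?_⟩⟩
        simp [zv]
      · rintro ⟨y, hy, hxy⟩
        choose z hz using hxy
        refine ⟨z, ?_⟩
        have : x - zv z = y := by
          ext i
          simp [zv, hz i]
        rw [this]
        exact hy
  · show volume (DD (n + 1) c r ∩ Pool.Agent.H888R2.Iso.cell (n + 1)) = _
    rw [vol_DD hd hc0 hr0 hsep, hvol, hball, ← ENNReal.ofReal_mul (by positivity)]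
    congr 1
    unfold b
    ring
  · have h := bd_DD (n := n) hc0 hc1 hr0
    rw [hball, ← ENNReal.ofReal_mul (by positivity)] at h
    exact h

open Pool.Agent.H888R2.Iso in
/-- **Theorem.** Let `d ≥ 10`. There is `β ∈ (0, 1/2]` and a (connected) domain `D` of volume `β` in the
flat torus `T^d = ℝ^d/ℤ^d` whose boundary volume is strictly less than every `φ_k(β)` that is defined.
In particular the isoperimetric profile of `T^d` is not given by the model curves. -/
theorem result (d : ℕ) (hd : 10 ≤ d) :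
    (∃ β : ℝ, 0 < β ∧ β ≤ 1 / 2 ∧
      ∃ D : Set (E d), IsDomain D ∧ ConnectedRegion D ∧ vol D = ENNReal.ofReal β ∧
        ∀ k : ℕ, Applicable d k β → bdVol D < ENNReal.ofReal (phi d k β)) ∧
    ¬ ProfileIsModel d := by
  have main : ∃ β : ℝ, 0 < β ∧ β ≤ 1 / 2 ∧
      ∃ D : Set (E d), IsDomain D ∧ ConnectedRegion D ∧ vol D = ENNReal.ofReal β ∧
        ∀ k : ℕ, Applicable d k β → bdVol D < ENNReal.ofReal (phi d k β) := by
    have hb := b_pos d
    have hd0 : (0:ℝ) < d := by
      have : 0 < d := by omega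
      exact_mod_cast this
    refine ⟨b d, hb, ?_, ?_⟩
    · have h1 := key hd (le_refl 1) (by omega)
      rw [pow_one, b_one] at h1
      have h2 : (10:ℝ) ≤ d := by exact_mod_cast hd
      push_cast at h1
      nlinarith
    · obtain ⟨n, rfl⟩ : ∃ n, d = n + 1 := ⟨d - 1, by omega⟩
      -- the bound as a function of `q`
      have hcont : Tendsto (fun q : ℝ => ((√(1 - q))⁻¹) ^ n *
          (1 / 2 * (1 - q) ^ (1 / (2 * ((n : ℝ) + 1)))) ^ n * ((n : ℝ) + 1) * w (n + 1)) (𝓝[>] 0)
          (𝓝 (2 * ((n + 1 : ℕ) : ℝ) * b (n + 1))) := by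
        have hca : ContinuousAt (fun q : ℝ => ((√(1 - q))⁻¹) ^ n *
          (1 / 2 * (1 - q) ^ (1 / (2 * ((n : ℝ) + 1)))) ^ n * ((n : ℝ) + 1) * w (n + 1)) 0 := by
          have h1 : ContinuousAt (fun q : ℝ => (√(1 - q))⁻¹) 0 := by
            apply ContinuousAt.inv₀
            · fun_prop
            · simp
          have h2 : ContinuousAt (fun q : ℝ => (1 - q) ^ (1 / (2 * ((n : ℝ) + 1)))) 0 := by
            apply ContinuousAt.rpow_const
            · fun_prop
            · left; simp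
          exact (((h1.pow n).mul ((continuousAt_const.mul h2).pow n)).mul continuousAt_const).mul
            continuousAt_const
        have h3 := hca.tendsto.mono_left (nhdsWithin_le_nhds (s := Ioi (0:ℝ)))
        have e : ((√(1 - (0:ℝ)))⁻¹) ^ n * (1 / 2 * (1 - (0:ℝ)) ^ (1 / (2 * ((n : ℝ) + 1)))) ^ n *
            ((n : ℝ) + 1) * w (n + 1) = 2 * ((n + 1 : ℕ) : ℝ) * b (n + 1) := by
          rw [sub_zero, Real.sqrt_one, inv_one, one_pow, Real.one_rpow]
          unfold b
          push_cast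
          rw [pow_succ, mul_one, one_mul, one_div, inv_pow]
          field_simp
        rw [e] at h3
        exact h3
      have hev : ∀ᶠ q : ℝ in 𝓝[>] 0, ∀ k ∈ Finset.range (n + 1), 1 ≤ k →
          ((√(1 - q))⁻¹) ^ n * (1 / 2 * (1 - q) ^ (1 / (2 * ((n : ℝ) + 1)))) ^ n *
            ((n : ℝ) + 1) * w (n + 1) < phi (n + 1) k (b (n + 1)) := by
        rw [Filter.eventually_all_finset]
        intro k hk
        by_cases hk1 : 1 ≤ k
        · have h4 := phi_gt hd hk1 (Finset.mem_range.1 hk)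
          filter_upwards [hcont.eventually_lt_const h4] with q hq _
          exact hq
        · exact Eventually.of_forall fun q h => absurd h hk1
      have hev2 : ∀ᶠ q : ℝ in 𝓝[>] 0, q ∈ Ioo (0:ℝ) (1 / 2) := Ioo_mem_nhdsGT (by norm_num)
      obtain ⟨q, hq1, hq2⟩ := (hev.and hev2).exists
      obtain ⟨D, hD1, hD2, hD3, hD4⟩ := exists_domain (n := n) (by omega) hq2.1 hq2.2.le
      refine ⟨D, hD1, hD2, hD3, ?_⟩
      rintro k ⟨hk, happ⟩
      rcases Nat.eq_zero_or_pos k with h0 | hpos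
      · subst h0
        rw [Nat.sub_zero, omega_eq _ (by omega)] at happ
        exact absurd happ (lt_irrefl _)
      · refine hD4.trans_lt ?_
        have h5 := hq1 k (Finset.mem_range.2 hk) hpos
        exact (ENNReal.ofReal_lt_ofReal_iff_of_nonneg (by
          have := w_pos (n + 1)
          have : 0 ≤ (1 - q) ^ (1 / (2 * ((n : ℝ) + 1))) :=
            Real.rpow_nonneg (by linarith [hq2.2]) _
          positivity)).2 h5
  refine ⟨main, ?_⟩
  obtain ⟨β, hβ0, hβ1, D, hD, -, hDv, hlt⟩ := main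
  intro hP
  obtain ⟨k, hk, he⟩ := (hP β hβ0 hβ1).1
  have h1 : profile d β ≤ bdVol D := iInf_le_of_le D (iInf_le_of_le hD (iInf_le_of_le hDv le_rfl))
  exact absurd (he ▸ h1) (not_le.2 (hlt k hk))

end Pool.Agent.Results.MP_cbfbdc_gt.NotModelCurves
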